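import Mathlib
import Pool.Agent.X146.SSF.Main

/-!
Two isospectral spherical space forms of dimension `17` with non-isomorphic fundamental groups.
-/

namespace Pool.Agent.Results.MP_add580_gt.DimensionSeventeen

open Metric Pool.Agent.X146.SSF

/-- The orthogonal group `O(m)`, as the group of linear isometries of `ℝ^m`. -/
abbrev OG (m : ℕ) : Type := EuclideanSpace ℝ (Fin m) ≃ₗᵢ[ℝ] EuclideanSpace ℝ (Fin m)

/-- A subgroup `Γ` of `O(m)` defines a spherical space form: it is finite and no element except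
the identity fixes a point of the unit sphere. -/
def IsSpaceFormGroup {m : ℕ} (Γ : Subgroup (OG m)) : Prop :=
  Finite Γ ∧ ∀ g ∈ Γ, g ≠ 1 → ∀ x : sphere (0 : EuclideanSpace ℝ (Fin m)) 1, sphereMap g x ≠ x

/-- The two spherical space forms are isospectral: for every real `lam` the eigenspaces
`Δ f = -lam f` of the two quotients have the same dimension. -/
def IsospectralGroups {m : ℕ} (Γ₁ Γ₂ : Subgroup (OG m)) : Prop :=
  Isospectral Γ₁ Γ₂

theorem isSpaceForm (e : Idx) : IsSpaceFormGroup (m := 18) ((Lam e).map tau) := by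
  constructor
  · exact Finite.of_equiv _ (imageEquiv e).toEquiv
  · rintro _ ⟨g, hg, rfl⟩ hne x hx
    apply hne
    have h1 : tau g (x : EuclideanSpace ℝ (Fin 18)) = x := congrArg Subtype.val hx
    have h2 : (x : EuclideanSpace ℝ (Fin 18)) ≠ 0 := by
      intro h
      have := mem_sphere_zero_iff_norm.1 x.2
      rw [h] at this
      simp at this
    rw [tau_free e hg h2 h1, map_one]

/-- In dimension `17 = 1 mod 4` there are two isospectral spherical space forms
`S^17/Γ₁`, `S^17/Γ₂` with non-isomorphic fundamental groups `Γ₁`, `Γ₂` (both of order `819`). -/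
theorem result : 17 % 4 = 1 ∧
    ∃ Γ₁ Γ₂ : Subgroup (OG (17 + 1)),
      IsSpaceFormGroup Γ₁ ∧ IsSpaceFormGroup Γ₂ ∧ Nat.card Γ₁ = 819 ∧ Nat.card Γ₂ = 819 ∧
        IsospectralGroups Γ₁ Γ₂ ∧ IsEmpty (Γ₁ ≃* Γ₂) := by
  have hcard : ∀ e : Idx, Nat.card ((Lam e).map tau) = 819 := by
    intro e
    rw [← Nat.card_congr (imageEquiv e).toEquiv, ← Nat.card_congr (param e), Nat.card_prod]
    simp
  refine ⟨by norm_num, (Lam (1, 0)).map tau, (Lam (0, 1)).map tau, isSpaceForm _, isSpaceForm _,
    hcard _, hcard _, isospectral_of_conj tau _ _ bij bij_conj, ⟨fun f => ?_⟩⟩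
  exact not_iso.false (((imageEquiv (1, 0)).trans f).trans (imageEquiv (0, 1)).symm)

end Pool.Agent.Results.MP_add580_gt.DimensionSeventeen
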